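import Mathlib

/-!
Finitely generated fiber products of free semigroups: bounded relations.
-/

set_option autoImplicit false

namespace Pool.Agent.Q104.FS

/-- the value of a word -/
def ev {A M : Type} [Monoid M] (φ : A → M) (l : List A) : M := (l.map φ).prod

section ev

variable {A M : Type} [Monoid M] (φ : A → M)

theorem ev_nil : ev φ [] = 1 := rfl

theorem ev_append (l l' : List A) : ev φ (l ++ l') = ev φ l * ev φ l' := by
  simp [ev]

theorem ev_cons (a : A) (l : List A) : ev φ (a :: l) = φ a * ev φ l := by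
  simp [ev]

end ev

/-- The fiber product of two free monoids over `M`, generated by finitely many pairs of nonempty
words. -/
structure Dat (A B M ι : Type) [Monoid M] where
  φ : A → M
  ψ : B → M
  hat : A → List B
  hat_ne : ∀ a, hat a ≠ []
  hat_ev : ∀ a, ev ψ (hat a) = φ a
  chk : B → List A
  chk_ne : ∀ b, chk b ≠ []
  chk_ev : ∀ b, ev φ (chk b) = ψ b
  p : ι → List A
  q : ι → List B
  p_ne : ∀ i, p i ≠ []
  q_ne : ∀ i, q i ≠ []
  L : ℕ
  p_le : ∀ i, (p i).length ≤ L
  q_le : ∀ i, (q i).length ≤ L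
  pq : ∀ i, ev φ (p i) = ev ψ (q i)
  gen : ∀ u v, ev φ u = ev ψ v →
    ∃ l : List ι, (l.map p).flatten = u ∧ (l.map q).flatten = v

namespace Dat

variable {A B M ι : Type} [Monoid M]

/-- exchange the two factors -/
def swap (D : Dat A B M ι) : Dat B A M ι where
  φ := D.ψ
  ψ := D.φ
  hat := D.chk
  hat_ne := D.chk_ne
  hat_ev := D.chk_ev
  chk := D.hat
  chk_ne := D.hat_ne
  chk_ev := D.hat_ev
  p := D.q
  q := D.p
  p_ne := D.q_ne
  q_ne := D.p_ne
  L := D.L
  p_le := D.q_le
  q_le := D.p_le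
  pq i := (D.pq i).symm
  gen u v h := by
    obtain ⟨l, h1, h2⟩ := D.gen v u h.symm
    exact ⟨l, h2, h1⟩

variable (D : Dat A B M ι)

/-- the first word of a product of generators -/
def U (l : List ι) : List A := (l.map D.p).flatten

/-- the second word of a product of generators -/
def V (l : List ι) : List B := (l.map D.q).flatten

theorem U_append (l l' : List ι) : D.U (l ++ l') = D.U l ++ D.U l' := by simp [U]

theorem V_append (l l' : List ι) : D.V (l ++ l') = D.V l ++ D.V l' := by simp [V]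

theorem U_cons (i : ι) (l : List ι) : D.U (i :: l) = D.p i ++ D.U l := by simp [U]

theorem V_cons (i : ι) (l : List ι) : D.V (i :: l) = D.q i ++ D.V l := by simp [V]

theorem gen' {u : List A} {v : List B} (h : ev D.φ u = ev D.ψ v) :
    ∃ l : List ι, D.U l = u ∧ D.V l = v := D.gen u v h

theorem ev_U (l : List ι) : ev D.φ (D.U l) = ev D.ψ (D.V l) := by
  induction l with
  | nil => rfl
  | cons i l ih => rw [U_cons, V_cons, ev_append, ev_append, ih, D.pq]

theorem le_U (l : List ι) : l.length ≤ (D.U l).length := by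
  induction l with
  | nil => simp
  | cons i l ih =>
    rw [U_cons, List.length_append, List.length_cons]
    have := List.length_pos_iff.2 (D.p_ne i)
    omega

theorem U_le (l : List ι) : (D.U l).length ≤ D.L * l.length := by
  induction l with
  | nil => simp [U]
  | cons i l ih =>
    rw [U_cons, List.length_append, List.length_cons, Nat.mul_succ]
    have := D.p_le i
    omega

theorem V_le (l : List ι) : (D.V l).length ≤ D.L * l.length := by
  induction l with
  | nil => simp [V]
  | cons i l ih =>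
    rw [V_cons, List.length_append, List.length_cons, Nat.mul_succ]
    have := D.q_le i
    omega

theorem len_le {u : List A} {v : List B} (h : ev D.φ u = ev D.ψ v) :
    v.length ≤ D.L * u.length := by
  obtain ⟨l, rfl, rfl⟩ := D.gen' h
  exact (D.V_le l).trans (Nat.mul_le_mul_left _ (D.le_U l))

/-- translation of words -/
def hatL (u : List A) : List B := (u.map D.hat).flatten

theorem hatL_append (u u' : List A) : D.hatL (u ++ u') = D.hatL u ++ D.hatL u' := by simp [hatL]

theorem ev_hatL (u : List A) : ev D.ψ (D.hatL u) = ev D.φ u := by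
  induction u with
  | nil => rfl
  | cons a u ih =>
    have h : D.hatL (a :: u) = D.hat a ++ D.hatL u := by simp [hatL]
    rw [h, ev_append, ev_cons, ih, D.hat_ev]

theorem hatL_eq_nil {u : List A} (h : D.hatL u = []) : u = [] := by
  cases u with
  | nil => rfl
  | cons a u =>
    exfalso
    have h1 : D.hatL (a :: u) = D.hat a ++ D.hatL u := by simp [hatL]
    rw [h1] at h
    exact D.hat_ne a (List.append_eq_nil_iff.1 h).1

/-- no word absorbs another one -/
theorem noabs {u w : List A} (h : ev D.φ (u ++ w) = ev D.φ u) : w = [] := by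
  by_contra hw
  have h1 : ∀ n : ℕ, ev D.φ (u ++ (List.replicate n w).flatten) = ev D.φ u := by
    intro n
    induction n with
    | zero => simp
    | succ n ih =>
      rw [List.replicate_succ, List.flatten_cons, ← List.append_assoc, ev_append, h, ← ev_append,
        ih]
  have h2 := D.swap.len_le (u := D.hatL u)
    (v := u ++ (List.replicate (D.L * (D.hatL u).length + 1) w).flatten)
    (by
      change ev D.ψ _ = ev D.φ _
      rw [h1, ev_hatL])
  have h3 : D.swap.L = D.L := rfl
  rw [h3, List.length_append, List.length_flatten, List.map_replicate, List.sum_replicate] at h2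
  have h4 := List.length_pos_iff.2 hw
  have h5 : D.L * (D.hatL u).length + 1 ≤ (D.L * (D.hatL u).length + 1) • w.length := by
    rw [smul_eq_mul]
    exact Nat.le_mul_of_pos_right _ h4
  omega

/-- cuts are totally ordered -/
theorem mono {u s : List A} {v t : List B} (h1 : ev D.φ (u ++ s) = ev D.ψ v)
    (h2 : ev D.φ u = ev D.ψ (v ++ t)) : s = [] ∧ t = [] := by
  have h3 : ev D.φ (u ++ (s ++ D.swap.hatL t)) = ev D.φ u := by
    have h4 : ev D.φ (D.swap.hatL t) = ev D.ψ t := D.swap.ev_hatL t
    rw [← List.append_assoc, ev_append, h4, h1, ← ev_append, h2]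
  have h4 := List.append_eq_nil_iff.1 (D.noabs h3)
  exact ⟨h4.1, D.swap.hatL_eq_nil h4.2⟩

/-- a place in a product of generators -/
theorem split (l : List ι) {n : ℕ} (h : n < (D.U l).length) :
    ∃ (l₁ : List ι) (i : ι) (l₂ : List ι), l = l₁ ++ i :: l₂ ∧ (D.U l₁).length ≤ n ∧
      n < (D.U l₁).length + (D.p i).length := by
  induction l generalizing n with
  | nil => simp [U] at h
  | cons i l ih =>
    by_cases hn : n < (D.p i).length
    · exact ⟨[], i, l, rfl, by simp [U], by simpa [U] using hn⟩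
    · rw [U_cons, List.length_append] at h
      obtain ⟨l₁, j, l₂, rfl, h1, h2⟩ := ih (n := n - (D.p i).length) (by omega)
      refine ⟨i :: l₁, j, l₂, rfl, ?_, ?_⟩
      · rw [U_cons, List.length_append]
        omega
      · rw [U_cons, List.length_append]
        omega

/-- a cut after a given place -/
theorem split' (l : List ι) {n : ℕ} (h : n < (D.U l).length) :
    ∃ l₁ l₂ : List ι, l = l₁ ++ l₂ ∧ n < (D.U l₁).length ∧ (D.U l₁).length ≤ n + D.L := by
  obtain ⟨l₁, i, l₂, rfl, h1, h2⟩ := D.split l h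
  refine ⟨l₁ ++ [i], l₂, by simp, ?_, ?_⟩
  · rw [U_append, U_cons, List.length_append, List.length_append]
    simp only [U, List.map_nil, List.flatten_nil, List.length_nil]
    have h3 : (D.U l₁).length = ((List.map D.p l₁).flatten).length := rfl
    omega
  · rw [U_append, U_cons, List.length_append, List.length_append]
    simp only [U, List.map_nil, List.flatten_nil, List.length_nil]
    have h3 : (D.U l₁).length = ((List.map D.p l₁).flatten).length := rfl
    have := D.p_le i
    omega

/-- **Bounded contexts.** -/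
theorem context {W s T : List A} (hs : s ≠ []) (h : ev D.φ (W ++ s) = ev D.φ (W ++ T)) :
    ∃ W₀ z : List A, W = W₀ ++ z ∧ z.length ≤ D.L ∧ ev D.φ (z ++ s) = ev D.φ (z ++ T) := by
  obtain ⟨l, hl1, hl2⟩ := D.gen' (u := W ++ s) (v := D.hatL (W ++ T)) (by rw [ev_hatL, h])
  have hlen : W.length < (D.U l).length := by
    rw [hl1, List.length_append]
    have := List.length_pos_iff.2 hs
    omega
  obtain ⟨l₁, i, l₂, rfl, h1, h2⟩ := D.split l hlen
  rw [U_append] at hl1
  rw [V_append] at hl2
  have hpre : D.U l₁ <+: W := by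
    refine List.prefix_of_prefix_length_le (l₃ := W ++ s) ?_ ⟨s, rfl⟩ h1
    exact ⟨_, hl1⟩
  obtain ⟨z, rfl⟩ := hpre
  refine ⟨D.U l₁, z, rfl, ?_, ?_⟩
  · have := D.p_le i
    rw [List.length_append] at h2
    omega
  · have hU : D.U (i :: l₂) = z ++ s := by
      rw [List.append_assoc] at hl1
      exact List.append_cancel_left hl1
    have hV : D.V l₁ = D.hatL (D.U l₁) := by
      have e1 : ev D.ψ (D.V l₁) = ev D.ψ (D.hatL (D.U l₁)) := by
        rw [← D.ev_U, ev_hatL]
      have p1 : D.V l₁ <+: D.hatL (D.U l₁ ++ z ++ T) := ⟨_, hl2⟩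
      have p2 : D.hatL (D.U l₁) <+: D.hatL (D.U l₁ ++ z ++ T) := by
        rw [List.append_assoc, hatL_append]
        exact ⟨_, rfl⟩
      rcases le_total (D.V l₁).length (D.hatL (D.U l₁)).length with hle | hle
      · obtain ⟨y, hy⟩ := List.prefix_of_prefix_length_le p1 p2 hle
        rw [← hy] at e1
        have h3 : y = [] := D.swap.noabs e1.symm
        rw [← hy, h3, List.append_nil]
      · obtain ⟨y, hy⟩ := List.prefix_of_prefix_length_le p2 p1 hle
        rw [← hy] at e1
        have h3 : y = [] := D.swap.noabs e1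
        rw [← hy, h3, List.append_nil]
    have hV2 : D.V (i :: l₂) = D.hatL (z ++ T) := by
      rw [hV, List.append_assoc, hatL_append] at hl2
      exact List.append_cancel_left hl2
    rw [← hU, D.ev_U, hV2, ev_hatL]

/-- **Crossing.** Two long factorizations of the same pair have cuts with a piece in between. -/
theorem cross {α β : List ι} (hU : D.U α = D.U β) (hV : D.V α = D.V β)
    (hlen : 5 * D.L + 5 < (D.U α).length) :
    ∃ α₁ α₂ β₁ β₂ π : List ι, α = α₁ ++ α₂ ∧ β = β₁ ++ β₂ ∧
      D.U (α₁ ++ π) = D.U β₁ ∧ D.V (α₁ ++ π) = D.V β₁ ∧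
      D.U (π ++ β₂) = D.U α₂ ∧ D.V (π ++ β₂) = D.V α₂ ∧
      α₁ ≠ [] ∧ α₂ ≠ [] ∧ β₁ ≠ [] ∧ β₂ ≠ [] ∧ π ≠ [] := by
  obtain ⟨α₁, α₂, rfl, h1, h2⟩ := D.split' α (n := 0) (by omega)
  rw [U_append] at hU hlen
  rw [V_append] at hV
  rw [List.length_append] at hlen
  obtain ⟨α₂, α₃, rfl, h3, h4⟩ := D.split' α₂ (n := D.L) (by omega)
  rw [U_append] at hU hlen
  rw [V_append] at hV
  rw [List.length_append] at hlen
  have hβ : (D.U β).length = (D.U α₁).length + ((D.U α₂).length + (D.U α₃).length) := by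
    rw [← hU]
    simp
  obtain ⟨β₁, β₂, rfl, h5, h6⟩ := D.split' β (n := 3 * D.L + 3) (by omega)
  rw [U_append] at hU hβ
  rw [V_append] at hV
  -- the position of the cut of `β`
  have hp : D.U α₁ ++ D.U α₂ <+: D.U β₁ := by
    refine List.prefix_of_prefix_length_le (l₃ := D.U β₁ ++ D.U β₂) ?_ ⟨_, rfl⟩ ?_
    · rw [← hU]
      exact ⟨D.U α₃, by simp⟩
    · rw [List.length_append]
      omega
  obtain ⟨s, hs⟩ := hp
  have hs0 : s ≠ [] := by
    rintro rfl
    rw [← hs] at h5
    simp only [List.append_nil, List.length_append] at h5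
    omega
  have e1 : ev D.φ (D.U α₁ ++ D.U α₂) = ev D.ψ (D.V α₁ ++ D.V α₂) := by
    rw [← U_append, ← V_append, D.ev_U]
  have e2 : ev D.φ (D.U α₁ ++ D.U α₂ ++ s) = ev D.ψ (D.V β₁) := by
    rw [hs, D.ev_U]
  have hq : D.V α₁ ++ D.V α₂ <+: D.V β₁ := by
    have p1 : D.V α₁ ++ D.V α₂ <+: D.V β₁ ++ D.V β₂ := by
      rw [← hV]
      exact ⟨D.V α₃, by simp⟩
    have p2 : D.V β₁ <+: D.V β₁ ++ D.V β₂ := ⟨_, rfl⟩
    rcases le_total (D.V α₁ ++ D.V α₂).length (D.V β₁).length with hle | hle
    · exact List.prefix_of_prefix_length_le p1 p2 hle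
    · obtain ⟨t, ht⟩ := List.prefix_of_prefix_length_le p2 p1 hle
      rw [← ht] at e1
      exact absurd (D.mono e2 e1).1 hs0
  obtain ⟨t, ht⟩ := hq
  -- the piece between the cuts
  have hpiece : ev D.φ (D.U α₂ ++ s) = ev D.ψ (D.V α₂ ++ t) := by
    have e3 : ev D.φ ((D.U α₁ ++ D.U α₂) ++ s) =
        ev D.φ ((D.U α₁ ++ D.U α₂) ++ D.swap.hatL t) := by
      have e4 : ev D.φ (D.swap.hatL t) = ev D.ψ t := D.swap.ev_hatL t
      rw [e2, ev_append, e4, e1, ← ev_append, ht]
    obtain ⟨W₀, z, hz, hzl, e5⟩ := D.context hs0 e3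
    have hsuf : z <:+ D.U α₂ := by
      refine List.suffix_of_suffix_length_le (l₃ := D.U α₁ ++ D.U α₂) ⟨W₀, hz.symm⟩
        ⟨_, rfl⟩ (by omega)
    obtain ⟨y, hy⟩ := hsuf
    have e6 : ev D.φ (D.U α₂ ++ s) = ev D.φ (D.U α₂ ++ D.swap.hatL t) := by
      rw [← hy, List.append_assoc, List.append_assoc, ev_append, e5, ← ev_append]
    have e7 : ev D.φ (D.swap.hatL t) = ev D.ψ t := D.swap.ev_hatL t
    rw [e6, ev_append, e7, D.ev_U, ← ev_append]
  obtain ⟨π, hπU, hπV⟩ := D.gen' hpiece
  refine ⟨α₁, α₂ ++ α₃, β₁, β₂, π, rfl, rfl, ?_, ?_, ?_, ?_, ?_, ?_, ?_, ?_, ?_⟩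
  · rw [U_append, hπU, ← hs, List.append_assoc]
  · rw [V_append, hπV, ← ht, List.append_assoc]
  · rw [U_append, U_append, hπU]
    rw [← hs] at hU
    have h7 : D.U α₁ ++ (D.U α₂ ++ D.U α₃) = D.U α₁ ++ (D.U α₂ ++ s ++ D.U β₂) := by
      rw [hU]
      simp
    exact (List.append_cancel_left h7).symm
  · rw [V_append, V_append, hπV]
    rw [← ht] at hV
    have h7 : D.V α₁ ++ (D.V α₂ ++ D.V α₃) = D.V α₁ ++ (D.V α₂ ++ t ++ D.V β₂) := by
      rw [hV]
      simp
    exact (List.append_cancel_left h7).symm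
  · rintro rfl
    simp [U] at h1
  · intro h
    obtain ⟨rfl, rfl⟩ := List.append_eq_nil_iff.1 h
    simp [U] at h3
  · rintro rfl
    simp [U] at h5
  · rintro rfl
    have h7 : D.U ([] : List ι) = [] := rfl
    rw [h7, List.length_append, List.length_nil] at hβ
    omega
  · rintro rfl
    have h7 : D.U ([] : List ι) = [] := rfl
    rw [h7] at hπU
    exact hs0 (List.append_eq_nil_iff.1 hπU.symm).2

end Dat

end Pool.Agent.Q104.FS
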